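import Pool.Agent.helper83.GR.Spec

/-!
# Project gr (MP_baa4d7_al), module CVF
-/

set_option autoImplicit false

namespace Pool.Agent.GR

open Pool.Agent.helper58.DC Pool.Agent.DI

theorem CVF_sum {G : Type} [Group G] [Fintype G] (a b : G → ℂ) (g : G) :
    cv a b g = ∑ x, a x * b (x⁻¹ * g) := finsum_eq_sum_of_fintype _

theorem CVF_assoc {G : Type} [Group G] [Finite G] (a b c : G → ℂ) :
    cv (cv a b) c = cv a (cv b c) := by
  cases nonempty_fintype G
  funext g
  rw [CVF_sum, CVF_sum]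
  simp only [CVF_sum, Finset.sum_mul, Finset.mul_sum]
  rw [Finset.sum_comm]
  apply Finset.sum_congr rfl
  intro y _
  rw [← Equiv.sum_comp (Equiv.mulLeft y⁻¹) (fun x => a y * (b x * c (x⁻¹ * (y⁻¹ * g))))]
  apply Finset.sum_congr rfl
  intro x _
  have h : (y⁻¹ * x)⁻¹ * (y⁻¹ * g) = x⁻¹ * g := by group
  rw [Equiv.coe_mulLeft, h, mul_assoc]

theorem CVF_inv {G : Type} [Group G] [Finite G] (l : G) (a b : G → ℂ)
    (ha : ∀ x, a (l * x * l⁻¹) = a x) (hb : ∀ x, b (l * x * l⁻¹) = b x) (x : G) :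
    cv a b (l * x * l⁻¹) = cv a b x := by
  cases nonempty_fintype G
  rw [CVF_sum, CVF_sum]
  rw [← Equiv.sum_comp (MulAut.conj l).toEquiv]
  apply Finset.sum_congr rfl
  intro y _
  have h1 : (MulAut.conj l).toEquiv y = l * y * l⁻¹ := rfl
  have h2 : (l * y * l⁻¹)⁻¹ * (l * x * l⁻¹) = l * (y⁻¹ * x) * l⁻¹ := by group
  rw [h1, ha, h2, hb]

theorem CVF_supp {G : Type} [Group G] [Finite G] (H : Subgroup G) (a b : G → ℂ)
    (ha : ∀ x, x ∉ H → a x = 0) (hb : ∀ x, x ∉ H → b x = 0) (x : G) (hx : x ∉ H) :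
    cv a b x = 0 := by
  cases nonempty_fintype G
  rw [CVF_sum]
  apply Finset.sum_eq_zero
  intro y _
  by_cases hy : y ∈ H
  · rw [hb (y⁻¹ * x), mul_zero]
    intro h
    apply hx
    have h1 := H.mul_mem hy h
    rwa [mul_inv_cancel_left] at h1
  · rw [ha y hy, zero_mul]

theorem CVF_comm {G : Type} [Group G] [Finite G] (H : Subgroup G) (a b : G → ℂ)
    (ha : CF H a) (hb : ∀ x, x ∉ H → b x = 0) : cv a b = cv b a := by
  cases nonempty_fintype G
  funext g
  rw [CVF_sum, CVF_sum]
  rw [← Equiv.sum_comp ((Equiv.inv G).trans (Equiv.mulLeft g))]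
  apply Finset.sum_congr rfl
  intro y _
  have h1 : ((Equiv.inv G).trans (Equiv.mulLeft g)) y = g * y⁻¹ := rfl
  have h2 : (g * y⁻¹)⁻¹ * g = y := by group
  rw [h1, h2]
  by_cases hy : y ∈ H
  · have h3 := ha.1 y hy (y⁻¹ * g)
    have h4 : y * (y⁻¹ * g) * y⁻¹ = g * y⁻¹ := by group
    rw [h4] at h3
    rw [h3, mul_comm]
  · rw [hb y hy, mul_zero, zero_mul]

theorem CVF_dl {G : Type} [Group G] (x : G) : (dl x : ℂ) = 0 ∨ x = 1 := by
  classical
  unfold dl
  by_cases h : x = 1
  · exact Or.inr h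
  · exact Or.inl (if_neg h)

theorem CVF_dl1 {G : Type} [Group G] : (dl (1 : G) : ℂ) = 1 := by
  unfold dl
  exact if_pos rfl

theorem CVF : CVF_stmt := by
  intro G _ _
  cases nonempty_fintype G
  refine ⟨CVF_assoc, ?_, ?_, ?_, CVF_inv, CVF_supp, CVF_comm, ?_, ?_, ?_, ?_, ?_⟩
  · intro a b c
    refine ⟨?_, ?_, ?_, ?_⟩
    · funext g
      simp only [Pi.add_apply, CVF_sum, add_mul, Finset.sum_add_distrib]
    · funext g
      simp only [Pi.add_apply, CVF_sum, mul_add, Finset.sum_add_distrib]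
    · funext g
      simp only [Pi.sub_apply, CVF_sum, sub_mul, Finset.sum_sub_distrib]
    · funext g
      simp only [Pi.sub_apply, CVF_sum, mul_sub, Finset.sum_sub_distrib]
  · intro k a b
    refine ⟨?_, ?_⟩
    · funext g
      simp only [Pi.smul_apply, CVF_sum, smul_eq_mul, mul_assoc, Finset.mul_sum]
    · funext g
      simp only [Pi.smul_apply, CVF_sum, smul_eq_mul, Finset.mul_sum]
      apply Finset.sum_congr rfl
      intro x _
      ring
  · intro a
    refine ⟨?_, ?_⟩
    · funext g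
      rw [CVF_sum, Finset.sum_eq_single 1]
      · rw [CVF_dl1, one_mul, inv_one, one_mul]
      · intro x _ hx
        rcases CVF_dl x with h | h
        · rw [h, zero_mul]
        · exact absurd h hx
      · intro h
        exact absurd (Finset.mem_univ _) h
    · funext g
      rw [CVF_sum, Finset.sum_eq_single g]
      · rw [inv_mul_cancel, CVF_dl1, mul_one]
      · intro x _ hx
        rcases CVF_dl (x⁻¹ * g) with h | h
        · rw [h, mul_zero]
        · exact absurd (inv_mul_eq_one.1 h) hx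
      · intro h
        exact absurd (Finset.mem_univ _) h
  · intro H a b ha hb
    refine ⟨⟨fun h hh x => CVF_inv h a b (ha.1 h hh) (hb.1 h hh) x,
      CVF_supp H a b ha.2 hb.2⟩, ⟨?_, ?_⟩, ⟨?_, ?_⟩⟩
    · intro h hh x
      rw [Pi.add_apply, Pi.add_apply, ha.1 h hh, hb.1 h hh]
    · intro x hx
      rw [Pi.add_apply, ha.2 x hx, hb.2 x hx, add_zero]
    · intro h hh x
      rw [Pi.sub_apply, Pi.sub_apply, ha.1 h hh, hb.1 h hh]
    · intro x hx
      rw [Pi.sub_apply, ha.2 x hx, hb.2 x hx, sub_zero]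
  · intro H k a ha
    refine ⟨?_, ?_⟩
    · intro h hh x
      rw [Pi.smul_apply, Pi.smul_apply, ha.1 h hh]
    · intro x hx
      rw [Pi.smul_apply, ha.2 x hx, smul_zero]
  · intro H
    refine ⟨?_, ?_⟩
    · intro h _ x
      rcases CVF_dl x with hx | hx
      · rw [hx]
        rcases CVF_dl (h * x * h⁻¹) with h1 | h1
        · exact h1
        · have h2 : x = 1 := by
            rw [mul_inv_eq_one] at h1
            exact mul_eq_left.1 h1
          rw [h2] at hx
          rw [CVF_dl1] at hx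
          exact absurd hx one_ne_zero
      · rw [hx, mul_one, mul_inv_cancel]
    · intro x hx
      rcases CVF_dl x with h | h
      · exact h
      · rw [h] at hx
        exact absurd H.one_mem hx
  · intro p M hS a b ha hb x
    exact IntAt.finsum hS fun y => (ha y).mul hS (hb _)
  · intro p M hS a b ha hb x
    exact InM.finsum hS fun y => InM.mul_left hS (ha y) (hb _)

end Pool.Agent.GR
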